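import Pool.Agent.Lib.MP_54fe2d_lc.UC.Semi

/-!
# Operations with at most one argument outside `λ`: the pair `(μ⁺, μ)` does not depend on them
-/

set_option autoImplicit false

namespace Pool.Agent.Lib.MP_54fe2d_lc.UC

open Cardinal Filter Set Order

universe u

/-- recover a path from its shape and its parameters -/
def unflat {I A : Type u} : List (I × ℕ) → List A → List (I × List A)
  | [], _ => []
  | q :: s, l => (q.1, l.take q.2) :: unflat s (l.drop q.2)

theorem unflat_flat {I A : Type u} (p : List (I × List A)) : unflat (shape p) (flat p) = p := by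
  induction p with
  | nil => rfl
  | cons q p ih =>
    obtain ⟨i, l⟩ := q
    have h1 : shape ((i, l) :: p) = (i, l.length) :: shape p := rfl
    have h2 : flat ((i, l) :: p) = l ++ flat p := by simp [flat]
    rw [h1, h2]
    simp only [unflat, List.take_left, List.drop_left, ih]

/-- The main theorem for strong limit cardinals, with all ordinals `≤ μ` in `X`. -/
theorem semi_ext {κ lam : Cardinal.{u}} (hκ : StronglyCompact κ) (hlam : κ ≤ lam)
    (hsl : lam.IsStrongLimit) (hcof : lam.ord.cof < κ) (I : Type u) (hI : #I < κ)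
    (F : I → List (succ lam).ord.ToType → (succ lam).ord.ToType → (succ lam).ord.ToType)
    (ν : Cardinal.{u}) (hν : ν < κ) :
    ∃ (X : Set (succ lam).ord.ToType) (μ : Cardinal.{u}),
      ν ≤ μ ∧ μ < κ ∧ #X = succ μ ∧
      #{a : (succ lam).ord.ToType | a ∈ X ∧ (a.toOrd : Ordinal) < lam.ord} = μ ∧
      (∀ a : (succ lam).ord.ToType, (a.toOrd : Ordinal) ≤ μ.ord → a ∈ X) ∧
      ∀ i l, (∀ c ∈ l, c ∈ X ∧ (c.toOrd : Ordinal) < lam.ord) → ∀ a ∈ X, F i l a ∈ X := by
  classical
  have hω : ℵ₀ < κ := hκ.1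
  have hωlam : ℵ₀ ≤ lam := hω.le.trans hlam
  have hlamle : lam.ord ≤ (succ lam).ord := Cardinal.ord_le_ord.2 (Order.le_succ _)
  have hlim : IsSuccLimit lam.ord := isSuccLimit_ord hωlam
  obtain ⟨U, hUdef⟩ : ∃ U : Set (succ lam).ord.ToType,
    U = {a | (a.toOrd : Ordinal) < lam.ord} := ⟨_, rfl⟩
  have hUmem : ∀ a, a ∈ U ↔ (a.toOrd : Ordinal) < lam.ord := fun a => by rw [hUdef]; rfl
  have hU : #U = lam := by rw [hUdef, card_below hlamle, card_ord]
  obtain ⟨C, hC, hCc⟩ := Order.exists_cof_eq lam.ord.ToType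
  rw [Ordinal.cof_toType] at hCc
  have hCκ : #C < κ := hCc.trans_lt hcof
  -- the initial segments
  let T : C → Set (succ lam).ord.ToType := fun c =>
    {a | (a.toOrd : Ordinal) < (c.1.toOrd : Ordinal)}
  have hTcard : ∀ c : C, #(T c) < lam := by
    intro c
    have h1 : (c.1.toOrd : Ordinal) < lam.ord := c.1.toOrd.2
    rw [card_below (h1.le.trans hlamle)]
    exact lt_ord.1 h1
  have hbound : ∀ L : List (succ lam).ord.ToType, (∀ a ∈ L, a ∈ U) →
      ∃ c : C, ∀ a ∈ L, a ∈ T c := by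
    intro L hL
    have h1 : ∃ o : Ordinal.{u}, o < lam.ord ∧ ∀ a ∈ L, (a.toOrd : Ordinal) < o := by
      induction L with
      | nil => exact ⟨0, hlim.bot_lt, by simp⟩
      | cons b L ih =>
        obtain ⟨o, ho, hoL⟩ := ih fun a ha => hL a (List.mem_cons_of_mem _ ha)
        have hb := (hUmem b).1 (hL b List.mem_cons_self)
        refine ⟨max o (succ (b.toOrd : Ordinal)), max_lt ho (hlim.succ_lt hb), ?_⟩
        intro a ha
        rcases List.mem_cons.1 ha with rfl | ha
        · exact (Order.lt_succ _).trans_le (le_max_right _ _)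
        · exact (hoL a ha).trans_le (le_max_left _ _)
    obtain ⟨o, ho, hoL⟩ := h1
    obtain ⟨c, hcC, hc⟩ := hC (Ordinal.ToType.mk ⟨o, ho⟩)
    refine ⟨⟨c, hcC⟩, fun a ha => ?_⟩
    have h2 : o ≤ (c.toOrd : Ordinal) := by
      have h3 : (⟨o, ho⟩ : Iio lam.ord) ≤ c.toOrd := by
        simpa using Ordinal.ToType.mk.symm.monotone hc
      exact h3
    exact (hoL a ha).trans_le h2
  -- the codes
  let Φ : C → Type u := fun c => List (I × List (T c)) → Option (T c)
  have hΦcard : ∀ c, #(Φ c) < lam := by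
    intro c
    have h1 : #(List (I × List (T c))) ≤ max ℵ₀ (max #I #(T c)) := by
      have hμ : ℵ₀ ≤ max ℵ₀ (max #I #(T c)) := le_max_left _ _
      refine (mk_list_le_max _).trans (max_le hμ ?_)
      rw [Cardinal.mk_prod, Cardinal.lift_id, Cardinal.lift_id]
      have h2 : #(List (T c)) ≤ max ℵ₀ (max #I #(T c)) :=
        (mk_list_le_max _).trans (max_le hμ ((le_max_right _ _).trans (le_max_right _ _)))
      exact (mul_le_mul' ((le_max_left _ _).trans (le_max_right _ _)) h2).trans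
        (Cardinal.mul_eq_self hμ).le
    have h2 : #(Option (T c)) ≤ max ℵ₀ (max #I #(T c)) := by
      rw [Cardinal.mk_option]
      refine Cardinal.add_le_of_le (le_max_left _ _)
        ((le_max_right _ _).trans (le_max_right _ _)) ?_
      exact one_le_aleph0.trans (le_max_left _ _)
    have h3 : max ℵ₀ (max #I #(T c)) < lam :=
      max_lt (hω.trans_le hlam) (max_lt (hI.trans_le hlam) (hTcard c))
    have h4 : #(Φ c) = #(Option (T c)) ^ #(List (I × List (T c))) := by
      simp only [Φ, Cardinal.mk_pi, Cardinal.prod_const, Cardinal.lift_id]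
    have h5 : (max ℵ₀ (max #I #(T c))) ≠ 0 :=
      (aleph0_pos.trans_le (le_max_left _ _)).ne'
    rw [h4]
    refine (Cardinal.power_le_power_right h2).trans_lt ?_
    refine (Cardinal.power_le_power_left h5 h1).trans_lt ?_
    rw [Cardinal.power_self_eq (le_max_left _ _)]
    exact hsl.two_power_lt h3
  have hsum : #(Σ c : C, Φ c) ≤ #U := by
    rw [Cardinal.mk_sigma, hU]
    refine (Cardinal.sum_le_mk_mul_iSup _).trans ?_
    have h1 : (⨆ c : C, #(Φ c)) ≤ lam := ciSup_le' fun c => (hΦcard c).le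
    exact (mul_le_mul' (hCκ.le.trans hlam) h1).trans (Cardinal.mul_eq_self hωlam).le
  obtain ⟨code⟩ := Cardinal.le_def _ _ |>.1 hsum
  -- the unary functions
  let cf : ∀ c : C, (succ lam).ord.ToType → Φ c := fun c a p =>
    if h : act F (up p) a ∈ T c then some ⟨act F (up p) a, h⟩ else none
  -- the operations on `λ`
  have hne : Nonempty (succ lam).ord.ToType := by
    rw [← Cardinal.mk_ne_zero_iff, mk_ord_toType]
    exact (Order.succ_ne_bot lam)
  obtain ⟨a₀⟩ := hne
  let J : Type u := C × List (I × ULift.{u} ℕ)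
  let G : J → List (succ lam).ord.ToType → (succ lam).ord.ToType := fun j l =>
    if h : ∃ (φ : Φ j.1) (p : List (I × List (T j.1))) (b : T j.1),
      l = (code ⟨j.1, φ⟩ : (succ lam).ord.ToType) :: flat (up p) ∧
      shape (up p) = j.2.map (fun q => (q.1, q.2.down)) ∧ φ p = some b
    then (h.choose_spec.choose_spec.choose : (succ lam).ord.ToType) else a₀
  have hG : ∀ (c : C) (φ : Φ c) (p : List (I × List (T c))) (b : T c), φ p = some b →
      G (c, (shape (up p)).map (fun q => (q.1, ULift.up q.2)))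
        ((code ⟨c, φ⟩ : (succ lam).ord.ToType) :: flat (up p)) = b := by
    intro c φ p b hb
    have hex : ∃ (φ' : Φ c) (p' : List (I × List (T c))) (b' : T c),
        (code ⟨c, φ⟩ : (succ lam).ord.ToType) :: flat (up p) =
          (code ⟨c, φ'⟩ : (succ lam).ord.ToType) :: flat (up p') ∧
        shape (up p') = ((shape (up p)).map (fun q => (q.1, ULift.up.{u} q.2))).map
          (fun q => (q.1, q.2.down)) ∧ φ' p' = some b' := by
      refine ⟨φ, p, b, rfl, ?_, hb⟩
      rw [List.map_map]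
      exact (List.map_id _).symm
    have hval : G (c, (shape (up p)).map (fun q => (q.1, ULift.up q.2)))
        ((code ⟨c, φ⟩ : (succ lam).ord.ToType) :: flat (up p)) =
        (hex.choose_spec.choose_spec.choose : (succ lam).ord.ToType) := by
      simp only [G]
      rw [dif_pos hex]
    have huniq : ∀ (φ' : Φ c) (p' : List (I × List (T c))) (b' : T c),
        (code ⟨c, φ⟩ : (succ lam).ord.ToType) :: flat (up p) =
          (code ⟨c, φ'⟩ : (succ lam).ord.ToType) :: flat (up p') →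
        shape (up p') = ((shape (up p)).map (fun q => (q.1, ULift.up.{u} q.2))).map
          (fun q => (q.1, q.2.down)) → φ' p' = some b' → b' = b := by
      intro φ' p' b' h1 h2 h3
      have h4 := List.cons.inj h1
      have h5 : (⟨c, φ⟩ : Σ c : C, Φ c) = ⟨c, φ'⟩ :=
        code.injective (Subtype.ext h4.1)
      have h6 : φ = φ' := eq_of_heq (Sigma.mk.inj h5).2
      have h7 : up p = up p' := by
        apply path_ext
        · rw [h2, List.map_map]
          exact (List.map_id _).symm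
        · exact h4.2
      have h8 : p = p' := up_injective h7
      subst h6
      subst h8
      rw [hb] at h3
      exact (Option.some.inj h3).symm
    rw [hval]
    obtain ⟨h1, h2, h3⟩ := hex.choose_spec.choose_spec.choose_spec
    exact congrArg Subtype.val (huniq _ _ _ h1 h2 h3)
  have hJ : #J < κ := by
    have h1 : #(List (I × ULift.{u} ℕ)) ≤ max ℵ₀ #I := by
      refine (mk_list_le_max _).trans (max_le (le_max_left _ _) ?_)
      rw [Cardinal.mk_prod, Cardinal.lift_id, Cardinal.lift_id, Cardinal.mk_uLift,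
        Cardinal.mk_nat, Cardinal.lift_aleph0]
      exact (mul_le_mul' (le_max_right ℵ₀ #I) (le_max_left ℵ₀ #I)).trans
        (Cardinal.mul_eq_self (le_max_left _ _)).le
    have h2 : #J = #C * #(List (I × ULift.{u} ℕ)) := by
      simp only [J, Cardinal.mk_prod, Cardinal.lift_id]
    rw [h2]
    exact Cardinal.mul_lt_of_lt hω.le hCκ (h1.trans_lt (max_lt hω hI))
  have hJμ' : #(J ⊕ List (I × ULift.{u} ℕ)) < κ := by
    rw [Cardinal.mk_sum, Cardinal.lift_id, Cardinal.lift_id]
    refine Cardinal.add_lt_of_lt hω.le hJ ?_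
    refine lt_of_le_of_lt ?_ (max_lt hω hI)
    refine (mk_list_le_max _).trans (max_le (le_max_left _ _) ?_)
    rw [Cardinal.mk_prod, Cardinal.lift_id, Cardinal.lift_id, Cardinal.mk_uLift,
      Cardinal.mk_nat, Cardinal.lift_aleph0]
    exact (mul_le_mul' (le_max_right ℵ₀ #I) (le_max_left ℵ₀ #I)).trans
      (Cardinal.mul_eq_self (le_max_left _ _)).le
  -- the operations on `λ`, with the operations `F` on the elements of `λ`
  let G2 : J ⊕ List (I × ULift.{u} ℕ) → List (succ lam).ord.ToType → (succ lam).ord.ToType :=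
    fun j l => match j, l with
      | Sum.inl j, l => G j l
      | Sum.inr _, [] => a₀
      | Sum.inr s, a :: l' => act F (unflat (s.map fun q => (q.1, q.2.down)) l') a
  have hG2 : ∀ (p : List (I × List (succ lam).ord.ToType)) (a : (succ lam).ord.ToType),
      G2 (Sum.inr ((shape p).map fun q => (q.1, ULift.up q.2))) (a :: flat p) = act F p a := by
    intro p a
    show act F (unflat (((shape p).map fun q => (q.1, ULift.up.{u} q.2)).map
      fun q => (q.1, q.2.down)) (flat p)) a = act F p a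
    rw [List.map_map]
    have h1 : (shape p).map ((fun q : I × ULift.{u} ℕ => (q.1, q.2.down)) ∘
        fun q => (q.1, ULift.up.{u} q.2)) = shape p := List.map_id _
    rw [h1, unflat_flat]
  -- the closed set
  obtain ⟨X', η, μ, hη1, hη2, hμ, hX', hX'U, hηX', -, hF, -⟩ :=
    main hκ hlam C PEmpty.{u + 1} hCκ (by rw [Cardinal.mk_pempty]; exact aleph0_pos.trans hω)
      (fun c _ a => (code ⟨c, cf c a⟩ : (succ lam).ord.ToType)) (fun j => j.elim)
      (max ν (max ℵ₀ (max #I #(J ⊕ List (I × ULift.{u} ℕ)))))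
      (max_lt hν (max_lt hω (max_lt hI hJμ')))
  have hνμ : max ν (max ℵ₀ (max #I #(J ⊕ List (I × ULift.{u} ℕ)))) ≤ μ := by
    rw [← hX'U]
    have h1 : {a : (succ lam).ord.ToType | (a.toOrd : Ordinal) < η} ⊆
        {a : (succ lam).ord.ToType | a ∈ X' ∧ (a.toOrd : Ordinal) < lam.ord} := by
      intro a ha
      exact ⟨hηX' a ha, lt_of_lt_of_le (lt_trans ha hη2) (Cardinal.ord_le_ord.2 hlam)⟩
    refine le_trans ?_ (Cardinal.mk_le_mk_of_subset h1)
    have hηle : η ≤ (succ lam).ord :=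
      hη2.le.trans (Cardinal.ord_le_ord.2 (hlam.trans (Order.le_succ _)))
    rw [card_below hηle]
    exact (Cardinal.ord_le.1 hη1)
  have hωμ : ℵ₀ ≤ μ := ((le_max_left _ _).trans (le_max_right _ _)).trans hνμ
  have hIμ : #I ≤ μ :=
    (((le_max_left _ _).trans (le_max_right _ _)).trans (le_max_right _ _)).trans hνμ
  have hJμ : #(J ⊕ List (I × ULift.{u} ℕ)) ≤ μ :=
    (((le_max_right _ _).trans (le_max_right _ _)).trans (le_max_right _ _)).trans hνμ
  have hμlam : μ.ord < lam.ord := Cardinal.ord_lt_ord.2 (hμ.trans_le hlam)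
  have hμlim : succ μ.ord < lam.ord := hlim.succ_lt hμlam
  -- the elements of `λ`
  obtain ⟨Y₀, hY₀⟩ : ∃ Y₀ : Set (succ lam).ord.ToType,
    Y₀ = {a | a ∈ X' ∧ (a.toOrd : Ordinal) < lam.ord} ∪
      {a | (a.toOrd : Ordinal) < succ μ.ord} := ⟨_, rfl⟩
  have hY₀card : #Y₀ ≤ μ := by
    rw [hY₀]
    refine (Cardinal.mk_union_le _ _).trans ?_
    rw [hX'U, card_below (hμlim.le.trans hlamle), Ordinal.card_succ, card_ord]
    exact Cardinal.add_le_of_le hωμ le_rfl
      (Cardinal.add_le_of_le hωμ le_rfl (one_le_aleph0.trans hωμ))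
  obtain ⟨Z, hZ⟩ : ∃ Z : Set (succ lam).ord.ToType,
    Z = ⋃ n, clo (fun (_ : PEmpty.{u + 1}) (_ : List (succ lam).ord.ToType)
      (a : (succ lam).ord.ToType) => a) G2 ∅ Y₀ n := ⟨_, rfl⟩
  have hZcard : #Z ≤ μ := by
    rw [hZ]
    refine card_clo _ G2 ∅ Y₀ hωμ ?_ hJμ ?_ hY₀card
    · rw [Cardinal.mk_pempty]; exact zero_le
    · rw [Cardinal.mk_emptyCollection]; exact zero_le
  have hY₀Z : Y₀ ⊆ Z := by rw [hZ]; exact subset_iUnion (clo _ G2 ∅ Y₀) 0
  have hZG : ∀ j l, (∀ c ∈ l, c ∈ Z) → G2 j l ∈ Z := by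
    intro j l hl
    rw [hZ] at hl ⊢
    exact clo_G hl j
  obtain ⟨Y, hY⟩ : ∃ Y : Set (succ lam).ord.ToType,
    Y = {a | a ∈ Z ∧ (a.toOrd : Ordinal) < lam.ord} := ⟨_, rfl⟩
  have hYmem : ∀ a, a ∈ Y ↔ a ∈ Z ∧ (a.toOrd : Ordinal) < lam.ord := fun a => by rw [hY]; rfl
  have hYcard : #Y ≤ μ :=
    (Cardinal.mk_le_mk_of_subset fun a ha => ((hYmem a).1 ha).1).trans hZcard
  have hX'Y : ∀ a ∈ X', (a.toOrd : Ordinal) < lam.ord → a ∈ Y := by
    intro a ha ha'
    refine (hYmem a).2 ⟨hY₀Z ?_, ha'⟩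
    rw [hY₀]
    exact Or.inl ⟨ha, ha'⟩
  obtain ⟨X, hX⟩ : ∃ X : Set (succ lam).ord.ToType, X = ⋃ a ∈ X' ∪ Y, R F Y a := ⟨_, rfl⟩
  have hXmem : ∀ b, b ∈ X ↔ ∃ a, a ∈ X' ∪ Y ∧ b ∈ R F Y a := fun b => by
    rw [hX]; simp only [mem_iUnion, exists_prop]
  have hX'X : X' ⊆ X := fun a ha => (hXmem a).2 ⟨a, Or.inl ha, self_mem_R F Y a⟩
  have hYX : Y ⊆ X := fun a ha => (hXmem a).2 ⟨a, Or.inr ha, self_mem_R F Y a⟩
  have hXU : ∀ b ∈ X, (b.toOrd : Ordinal) < lam.ord → b ∈ Y := by
    intro b hb hbU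
    obtain ⟨a, ha, p, hp, rfl⟩ := (hXmem b).1 hb
    rcases ha with ha | ha
    · obtain ⟨c, hc⟩ := hbound (act F p a :: flat p) (by
        intro x hx
        rcases List.mem_cons.1 hx with rfl | hx
        · exact (hUmem _).2 hbU
        · obtain ⟨q, hq, hxq⟩ := mem_flat.1 hx
          exact (hUmem x).2 ((hYmem x).1 (hp q hq x hxq)).2)
      obtain ⟨p', hp'⟩ := exists_path (P := T c) p (by
        intro q hq x hx
        exact hc x (List.mem_cons_of_mem _ (mem_flat.2 ⟨q, hq, hx⟩)))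
      have hup : up p' = p := hp'
      have hbT : act F (up p') a ∈ T c := by
        rw [hup]; exact hc _ List.mem_cons_self
      have hcf : cf c a p' = some ⟨act F (up p') a, hbT⟩ := by
        simp only [cf]
        rw [dif_pos hbT]
      have h1 := hG c (cf c a) p' _ hcf
      have h2 := hZG (Sum.inl (c, (shape (up p')).map (fun q => (q.1, ULift.up q.2))))
        ((code ⟨c, cf c a⟩ : (succ lam).ord.ToType) :: flat (up p')) (by
          intro x hx
          rcases List.mem_cons.1 hx with rfl | hx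
          · exact ((hYmem _).1 (hX'Y _ (hF c [] (by simp) a ha)
              ((hUmem _).1 (code ⟨c, cf c a⟩).2))).1
          · rw [hup] at hx
            obtain ⟨q, hq, hxq⟩ := mem_flat.1 hx
            exact ((hYmem x).1 (hp q hq x hxq)).1)
      have h2' : G (c, (shape (up p')).map (fun q => (q.1, ULift.up q.2)))
        ((code ⟨c, cf c a⟩ : (succ lam).ord.ToType) :: flat (up p')) ∈ Z := h2
      rw [h1] at h2'
      have h3 : act F p a ∈ Z := by
        rw [← hup]; exact h2'
      exact (hYmem _).2 ⟨h3, hbU⟩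
    · have h2 := hZG (Sum.inr ((shape p).map fun q => (q.1, ULift.up q.2))) (a :: flat p) (by
          intro x hx
          rcases List.mem_cons.1 hx with rfl | hx
          · exact ((hYmem _).1 ha).1
          · obtain ⟨q, hq, hxq⟩ := mem_flat.1 hx
            exact ((hYmem x).1 (hp q hq x hxq)).1)
      rw [hG2] at h2
      exact (hYmem _).2 ⟨h2, hbU⟩
  refine ⟨X, μ, (le_max_left _ _).trans hνμ, hμ, ?_, ?_, ?_, ?_⟩
  · apply le_antisymm
    · rw [hX]
      refine card_biUnion_R F Y (X' ∪ Y) hωμ (Order.le_succ _) hIμ hYcard ?_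
      refine (Cardinal.mk_union_le _ _).trans ?_
      exact Cardinal.add_le_of_le (hωμ.trans (Order.le_succ _)) hX'.le
        (hYcard.trans (Order.le_succ _))
    · rw [← hX']
      exact Cardinal.mk_le_mk_of_subset hX'X
  · apply le_antisymm
    · exact (Cardinal.mk_le_mk_of_subset fun b hb => hXU b hb.1 hb.2).trans hYcard
    · rw [← hX'U]
      exact Cardinal.mk_le_mk_of_subset fun b hb => ⟨hX'X hb.1, hb.2⟩
  · intro a ha
    have h1 : (a.toOrd : Ordinal) < lam.ord := ha.trans_lt hμlam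
    refine hYX ((hYmem a).2 ⟨hY₀Z ?_, h1⟩)
    rw [hY₀]
    exact Or.inr (Order.lt_succ_iff.2 ha)
  · intro i l hl a ha
    obtain ⟨a', ha', ha2⟩ := (hXmem a).1 ha
    exact (hXmem _).2 ⟨a', ha', R_closed ha2 i l fun c hc => hXU c (hl c hc).1 (hl c hc).2⟩

/-- The pair `(μ⁺, μ)` can be chosen independently of the operations. -/
theorem uniform {κ lam : Cardinal.{u}} (hκ : StronglyCompact κ) (hlam : κ ≤ lam)
    (hsl : lam.IsStrongLimit) (hcof : lam.ord.cof < κ) (I : Type u) (hI : #I < κ)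
    (ν : Cardinal.{u}) (hν : ν < κ) :
    ∃ μ : Cardinal.{u}, ν ≤ μ ∧ μ < κ ∧
      ∀ F : I → List (succ lam).ord.ToType → (succ lam).ord.ToType → (succ lam).ord.ToType,
      ∃ X : Set (succ lam).ord.ToType, #X = succ μ ∧
        #{a : (succ lam).ord.ToType | a ∈ X ∧ (a.toOrd : Ordinal) < lam.ord} = μ ∧
        (∀ a : (succ lam).ord.ToType, (a.toOrd : Ordinal) ≤ μ.ord → a ∈ X) ∧
        ∀ i l, (∀ c ∈ l, c ∈ X ∧ (c.toOrd : Ordinal) < lam.ord) → ∀ a ∈ X, F i l a ∈ X := by
  classical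
  by_contra hcon
  push Not at hcon
  have hex : ∀ μ : Cardinal.{u}, ∃ F : I → List (succ lam).ord.ToType →
      (succ lam).ord.ToType → (succ lam).ord.ToType, ν ≤ μ → μ < κ →
      ¬ ∃ X : Set (succ lam).ord.ToType, #X = succ μ ∧
        #{a : (succ lam).ord.ToType | a ∈ X ∧ (a.toOrd : Ordinal) < lam.ord} = μ ∧
        (∀ a : (succ lam).ord.ToType, (a.toOrd : Ordinal) ≤ μ.ord → a ∈ X) ∧
        ∀ i l, (∀ c ∈ l, c ∈ X ∧ (c.toOrd : Ordinal) < lam.ord) → ∀ a ∈ X, F i l a ∈ X := by
    intro μ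
    by_cases h : ν ≤ μ ∧ μ < κ
    · obtain ⟨F, hF⟩ := hcon μ h.1 h.2
      refine ⟨F, fun _ _ => ?_⟩
      rintro ⟨X, h1, h2, h3, h4⟩
      obtain ⟨i, l, hl, a, ha, hFa⟩ := hF X h1 h2 h3
      exact hFa (h4 i l hl a ha)
    · exact ⟨fun _ _ a => a, fun h1 h2 => absurd ⟨h1, h2⟩ h⟩
  choose Fam hFam using hex
  -- the first parameter chooses the algebra
  let F : I → List (succ lam).ord.ToType → (succ lam).ord.ToType → (succ lam).ord.ToType :=
    fun i l a => match l with
      | [] => a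
      | c :: l' => Fam (c.toOrd : Ordinal).card i l' a
  obtain ⟨X, μ, hνμ, hμ, hX, hXU, hμX, hcl⟩ := semi_ext hκ hlam hsl hcof I hI F ν hν
  refine hFam μ hνμ hμ ⟨X, hX, hXU, hμX, ?_⟩
  have hμlam : μ.ord < lam.ord := Cardinal.ord_lt_ord.2 (hμ.trans_le hlam)
  have hμlam' : μ.ord < (succ lam).ord := hμlam.trans_le (Cardinal.ord_le_ord.2 (Order.le_succ _))
  obtain ⟨c, hc⟩ : ∃ c : (succ lam).ord.ToType, (c.toOrd : Ordinal) = μ.ord :=
    ⟨Ordinal.ToType.mk ⟨μ.ord, hμlam'⟩, by simp [Ordinal.ToType.toOrd]⟩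
  intro i l hl a ha
  have h1 := hcl i (c :: l) (by
    intro d hd
    rcases List.mem_cons.1 hd with rfl | hd
    · exact ⟨hμX _ hc.le, by rw [hc]; exact hμlam⟩
    · exact hl d hd) a ha
  have h2 : F i (c :: l) a = Fam μ i l a := by
    show Fam (c.toOrd : Ordinal).card i l a = Fam μ i l a
    rw [hc, card_ord]
  rwa [h2] at h1

end Pool.Agent.Lib.MP_54fe2d_lc.UC
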