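import Mathlib

/-!
# Covers modulo a complete ultrafilter
-/

set_option autoImplicit false

namespace Pool.Agent.Lib.MP_54fe2d_lc.UC

open Cardinal Filter Set Order

universe u

variable {S A : Type u} {κ : Cardinal.{u}}

section basic

variable (W : Ultrafilter S)

/-- functions into a well-founded order, modulo a countably complete ultrafilter -/
theorem wf_lt [CountableInterFilter (W : Filter S)] {β : Type*} [Preorder β] [WellFoundedLT β] :
    WellFounded (fun f g : S → β => ∀ᶠ x in (W : Filter S), f x < g x) := by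
  rw [wellFounded_iff_isEmpty_descending_chain]
  refine ⟨fun ⟨f, hf⟩ => ?_⟩
  have h1 : ∀ᶠ x in (W : Filter S), ∀ n, f (n + 1) x < f n x := eventually_countable_forall.2 hf
  obtain ⟨x, hx⟩ := h1.exists
  have h2 : WellFounded (fun a b : β => a < b) := wellFounded_lt
  rw [wellFounded_iff_isEmpty_descending_chain] at h2
  exact h2.false ⟨fun n => f n x, hx⟩

/-- a minimal element of a family -/
theorem exists_min [CountableInterFilter (W : Filter S)] {β : Type*} [LinearOrder β]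
    [WellFoundedLT β] (P : (S → β) → Prop) (h : ∃ f, P f) :
    ∃ f, P f ∧ ∀ g, P g → ∀ᶠ x in (W : Filter S), f x ≤ g x := by
  obtain ⟨f, hf, hmin⟩ := (wf_lt W (β := β)).has_min {f | P f} h
  refine ⟨f, hf, fun g hg => ?_⟩
  have h1 := hmin g hg
  rw [← Ultrafilter.eventually_not] at h1
  exact h1.mono fun x hx => not_lt.1 hx

/-- a function with values in a small set is constant -/
theorem exists_const [CardinalInterFilter (W : Filter S) κ] {T : Type u} (g : S → T) (V : Set T)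
    (hV : #V < κ) (h : ∀ᶠ x in (W : Filter S), g x ∈ V) :
    ∃ v ∈ V, ∀ᶠ x in (W : Filter S), g x = v := by
  by_contra hcon
  have h1 : ∀ v ∈ V, ∀ᶠ x in (W : Filter S), g x ≠ v := by
    intro v hv
    rw [Ultrafilter.eventually_not]
    exact fun hc => hcon ⟨v, hv, hc⟩
  have h2 : ∀ᶠ x in (W : Filter S), ∀ v ∈ V, g x ≠ v := (eventually_cardinal_ball hV).2 h1
  obtain ⟨x, hx1, hx2⟩ := (h.and h2).exists
  exact hx2 _ hx1 rfl

/-- `C` is a cover of `B`: each element of `B` lies in almost all sets `C x`. -/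
def Cov (B : Set A) (C : S → Set A) : Prop := ∀ b ∈ B, ∀ᶠ x in (W : Filter S), b ∈ C x

/-- minimal covers exist -/
theorem exists_minCov [CountableInterFilter (W : Filter S)] (B : Set A) :
    ∃ C : S → Set A, Cov W B C ∧ ∀ C', Cov W B C' → ∀ᶠ x in (W : Filter S), #(C x) ≤ #(C' x) := by
  obtain ⟨f, ⟨C, hC, rfl⟩, hf⟩ := exists_min W
    (fun f : S → Cardinal.{u} => ∃ C : S → Set A, Cov W B C ∧ (fun x => #(C x)) = f)
    ⟨_, fun _ => univ, fun _ _ => Eventually.of_forall fun _ => mem_univ _, rfl⟩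
  exact ⟨C, hC, fun C' hC' => hf _ ⟨C', hC', rfl⟩⟩

variable {W}

theorem transfer {B B' : Set A} (hBB : #B = #B') {C C' : S → Set A}
    (hmin : ∀ C', Cov W B C' → ∀ᶠ x in (W : Filter S), #(C x) ≤ #(C' x)) (hC' : Cov W B' C') :
    ∀ᶠ x in (W : Filter S), #(C x) ≤ #(C' x) := by
  obtain ⟨e⟩ := Cardinal.eq.1 hBB
  let C'' : S → Set A := fun x => {a | ∃ h : a ∈ B, (e ⟨a, h⟩ : A) ∈ C' x}
  have h1 : Cov W B C'' := by
    intro b hb
    exact (hC' _ (e ⟨b, hb⟩).2).mono fun x hx => ⟨hb, hx⟩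
  refine (hmin C'' h1).mono fun x hx => hx.trans ?_
  refine Cardinal.mk_le_of_injective
    (f := fun a : C'' x => (⟨(e ⟨a.1, a.2.1⟩ : A), a.2.2⟩ : C' x)) ?_
  intro a b hab
  have h2 : (e ⟨a.1, a.2.1⟩ : A) = e ⟨b.1, b.2.1⟩ := (Subtype.ext_iff.1 hab : _)
  have h3 : (⟨a.1, a.2.1⟩ : B) = ⟨b.1, b.2.1⟩ := e.injective (Subtype.ext h2)
  exact Subtype.ext (Subtype.ext_iff.1 h3 : _)

/-- covers are at least as large as all small cardinals -/
theorem le_card [CardinalInterFilter (W : Filter S) κ] {B : Set A} {C : S → Set A}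
    (hC : Cov W B C) {ν : Cardinal.{u}} (hν : ν < κ) (hB : ν ≤ #B) :
    ∀ᶠ x in (W : Filter S), ν ≤ #(C x) := by
  obtain ⟨V, hVB, hV⟩ := le_mk_iff_exists_subset.1 hB
  have h1 : ∀ᶠ x in (W : Filter S), ∀ v ∈ V, v ∈ C x :=
    (eventually_cardinal_ball (hV.trans_lt hν)).2 fun v hv => hC v (hVB hv)
  refine h1.mono fun x hx => ?_
  rw [← hV]
  exact Cardinal.mk_le_mk_of_subset hx

/-- an enumeration of a set in the order type of its cardinal -/
theorem exists_index (C : Set A) :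
    ∃ f : A → Ordinal.{u}, InjOn f C ∧ ∀ a ∈ C, f a < (#C).ord := by
  classical
  have h1 : #C = #((#C).ord.ToType) := by rw [mk_ord_toType]
  obtain ⟨e⟩ := Cardinal.eq.1 h1
  refine ⟨fun a => if h : a ∈ C then ((e ⟨a, h⟩).toOrd : Ordinal) else 0, ?_, ?_⟩
  · intro a ha b hb hab
    simp only [ha, hb, dif_pos] at hab
    have h2 := Ordinal.ToType.mk.symm.injective (Subtype.ext hab)
    exact congrArg Subtype.val (e.injective h2)
  · intro a ha
    simp only [ha, dif_pos]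
    exact (e ⟨a, ha⟩).toOrd.2

theorem card_index {C : Set A} {f : A → Ordinal.{u}} (hf : InjOn f C) (hC : ℵ₀ ≤ #C)
    {o : Ordinal.{u}} (ho : o < (#C).ord) : #{a : A | a ∈ C ∧ f a ≤ o} < #C := by
  have h1 : #{a : A | a ∈ C ∧ f a ≤ o} ≤ (succ o).card := by
    rw [← Cardinal.mk_toType]
    refine Cardinal.mk_le_of_injective (f := fun a : {a : A | a ∈ C ∧ f a ≤ o} =>
      Ordinal.ToType.mk ⟨f a.1, Order.lt_succ_iff.2 a.2.2⟩) ?_
    intro a b hab
    have h2 := Ordinal.ToType.mk.injective hab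
    exact Subtype.ext (hf a.2.1 b.2.1 (congrArg Subtype.val h2))
  refine h1.trans_lt ?_
  rw [← lt_ord]
  exact (isSuccLimit_ord hC).succ_lt ho

/-- in a minimal cover few elements have small index -/
theorem small [CountableInterFilter (W : Filter S)] {B : Set A} {C : S → Set A}
    (hmin : ∀ C', Cov W B C' → ∀ᶠ x in (W : Filter S), #(C x) ≤ #(C' x))
    (hinf : ∀ᶠ x in (W : Filter S), ℵ₀ ≤ #(C x)) {f : S → A → Ordinal.{u}}
    (hf : ∀ x, InjOn (f x) (C x)) (h : S → Ordinal.{u})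
    (hh : ∀ᶠ x in (W : Filter S), h x < (#(C x)).ord) :
    #{b : A | b ∈ B ∧ ∀ᶠ x in (W : Filter S), b ∈ C x ∧ f x b ≤ h x} < #B := by
  by_contra hcon
  have h1 : #{b : A | b ∈ B ∧ ∀ᶠ x in (W : Filter S), b ∈ C x ∧ f x b ≤ h x} = #B :=
    le_antisymm (Cardinal.mk_le_mk_of_subset fun b hb => hb.1) (not_lt.1 hcon)
  have h2 := transfer (C' := fun x => {a | a ∈ C x ∧ f x a ≤ h x}) h1.symm hmin
    (fun b hb => hb.2)
  obtain ⟨x, hx1, hx2, hx3⟩ := (h2.and (hinf.and hh)).exists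
  exact absurd hx1 (not_le.2 (card_index (hf x) hx2 hx3))

/-- a minimal cover of a set of size `λ⁺` is larger than a minimal cover of a set of size `λ` -/
theorem strict [CountableInterFilter (W : Filter S)] [CardinalInterFilter (W : Filter S) κ]
    (hκ : ℵ₀ < κ) {lam : Cardinal.{u}} (hlam : ℵ₀ ≤ lam) {U : Set A} (hU : #U = lam)
    (hA : #A = succ lam) {CU CA : S → Set A} (hCU : Cov W U CU)
    (hCUmin : ∀ C', Cov W U C' → ∀ᶠ x in (W : Filter S), #(CU x) ≤ #(C' x))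
    (hCA : Cov W univ CA)
    (hCAmin : ∀ C' : S → Set A, Cov W univ C' → ∀ᶠ x in (W : Filter S), #(CA x) ≤ #(C' x)) :
    ∀ᶠ x in (W : Filter S), #(CU x) < #(CA x) := by
  classical
  by_contra hcon
  have h1 : ∀ᶠ x in (W : Filter S), #(CA x) ≤ #(CU x) := by
    have := Ultrafilter.eventually_not.2 hcon
    exact this.mono fun x hx => not_lt.1 hx
  have h2 : ∀ᶠ x in (W : Filter S), #(CU x) ≤ #(CA x) :=
    hCUmin _ fun b _ => hCA b (mem_univ b)
  choose fA hfA1 hfA2 using fun x => exists_index (CA x)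
  choose fU hfU1 hfU2 using fun x => exists_index (CU x)
  have hinfU : ∀ᶠ x in (W : Filter S), ℵ₀ ≤ #(CU x) := le_card hCU hκ (hlam.trans hU.ge)
  have hinfA : ∀ᶠ x in (W : Filter S), ℵ₀ ≤ #(CA x) := by
    filter_upwards [hinfU, h2] with x hx1 hx2 using hx1.trans hx2
  have hcovU : ∀ a : A, ∃ u ∈ U, ∀ᶠ x in (W : Filter S), a ∈ CA x ∧ fA x a ≤ fU x u := by
    intro a
    have h3 : ∀ᶠ x in (W : Filter S), fA x a < (#(CU x)).ord := by
      filter_upwards [hCA a (mem_univ a), h1] with x hx1 hx2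
      exact (hfA2 x a hx1).trans_le (Cardinal.ord_le_ord.2 hx2)
    have h4 := small hCUmin hinfU hfU1 (fun x => fA x a) h3
    obtain ⟨u, hu, hu2⟩ : ∃ u ∈ U, u ∉ {b : A | b ∈ U ∧ ∀ᶠ x in (W : Filter S),
        b ∈ CU x ∧ fU x b ≤ fA x a} := by
      by_contra hc
      push Not at hc
      exact absurd (Cardinal.mk_le_mk_of_subset hc) (not_le.2 h4)
    refine ⟨u, hu, ?_⟩
    have h5 : ¬ ∀ᶠ x in (W : Filter S), u ∈ CU x ∧ fU x u ≤ fA x a := fun hc => hu2 ⟨hu, hc⟩
    rw [← Ultrafilter.eventually_not] at h5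
    filter_upwards [h5, hCU u hu, hCA a (mem_univ a)] with x hx1 hx2 hx3
    refine ⟨hx3, ?_⟩
    by_contra hc
    exact hx1 ⟨hx2, (not_le.1 hc).le⟩
  have hsmall : ∀ u ∈ U, #{a : A | ∀ᶠ x in (W : Filter S), a ∈ CA x ∧ fA x a ≤ fU x u} ≤ lam := by
    intro u hu
    have h3 : ∀ᶠ x in (W : Filter S), fU x u < (#(CA x)).ord := by
      filter_upwards [hCU u hu, h2] with x hx1 hx2
      exact (hfU2 x u hx1).trans_le (Cardinal.ord_le_ord.2 hx2)
    have h4 := small hCAmin hinfA hfA1 (fun x => fU x u) h3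
    rw [Cardinal.mk_univ, hA] at h4
    refine (Order.lt_succ_iff.1 ?_)
    refine lt_of_le_of_lt (Cardinal.mk_le_mk_of_subset ?_) h4
    intro a ha
    exact ⟨mem_univ a, ha⟩
  have h6 : (univ : Set A) ⊆ ⋃ u : U, {a : A | ∀ᶠ x in (W : Filter S), a ∈ CA x ∧
      fA x a ≤ fU x u} := by
    intro a _
    obtain ⟨u, hu, hu2⟩ := hcovU a
    exact mem_iUnion.2 ⟨⟨u, hu⟩, hu2⟩
  have h7 := (Cardinal.mk_le_mk_of_subset h6).trans (Cardinal.mk_iUnion_le _)
  rw [Cardinal.mk_univ, hA, hU] at h7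
  have h8 : (⨆ u : U, #{a : A | ∀ᶠ x in (W : Filter S), a ∈ CA x ∧ fA x a ≤ fU x u}) ≤ lam :=
    ciSup_le' fun u => hsmall u u.2
  have h9 := h7.trans (mul_le_mul_right h8 lam)
  rw [Cardinal.mul_eq_self hlam] at h9
  exact absurd h9 (not_le.2 (Order.lt_succ lam))

end basic

end Pool.Agent.Lib.MP_54fe2d_lc.UC
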