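import Pool.Agent.Lib.MP_54fe2d_lc.UC.SC

/-!
# The theorem for the well-ordered set `λ⁺`
-/

set_option autoImplicit false

namespace Pool.Agent.Lib.MP_54fe2d_lc.UC

open Cardinal Filter Set Order

universe u

/-- The number of elements below an ordinal. -/
theorem card_below {o o' : Ordinal.{u}} (h : o' ≤ o) :
    #{a : o.ToType | (a.toOrd : Ordinal) < o'} = o'.card := by
  have hb : ∀ b : o'.ToType, (b.toOrd : Ordinal) < o := fun b => lt_of_lt_of_le b.toOrd.2 h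
  rw [← Cardinal.mk_toType o']
  refine Cardinal.mk_congr ⟨fun a => Ordinal.ToType.mk ⟨(a.1.toOrd : Ordinal), a.2⟩,
    fun b => ⟨Ordinal.ToType.mk ⟨(b.toOrd : Ordinal), hb b⟩, ?_⟩, ?_, ?_⟩
  · have h1 : ((Ordinal.ToType.mk (⟨(b.toOrd : Ordinal), hb b⟩ : Iio o)).toOrd : Ordinal) =
        (b.toOrd : Ordinal) := by
      simp [Ordinal.ToType.toOrd]
    show ((Ordinal.ToType.mk (⟨(b.toOrd : Ordinal), hb b⟩ : Iio o)).toOrd : Ordinal) < o'
    rw [h1]
    exact b.toOrd.2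
  · intro a
    apply Subtype.ext
    simp [Ordinal.ToType.toOrd]
  · intro b
    simp [Ordinal.ToType.toOrd]

theorem toOrd_lt {o : Ordinal.{u}} {a b : o.ToType} :
    (a.toOrd : Ordinal) < (b.toOrd : Ordinal) ↔ a < b := by
  rw [Subtype.coe_lt_coe]
  exact Ordinal.ToType.mk.symm.lt_iff_lt

/-- The main theorem. -/
theorem main {κ lam : Cardinal.{u}} (hκ : StronglyCompact κ) (hlam : κ ≤ lam) (ι J : Type u)
    (hι : #ι < κ) (hJ : #J < κ)
    (F : ι → List (succ lam).ord.ToType → (succ lam).ord.ToType → (succ lam).ord.ToType)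
    (G : J → List (succ lam).ord.ToType → (succ lam).ord.ToType)
    (ν : Cardinal.{u}) (hν : ν < κ) :
    ∃ (X : Set (succ lam).ord.ToType) (η : Ordinal.{u}) (μ : Cardinal.{u}),
      ν.ord ≤ η ∧ η < κ.ord ∧ μ < κ ∧ #X = succ μ ∧
      #{a : (succ lam).ord.ToType | a ∈ X ∧ (a.toOrd : Ordinal) < lam.ord} = μ ∧
      (∀ a : (succ lam).ord.ToType, (a.toOrd : Ordinal) < η → a ∈ X) ∧
      (IsEmpty J → ∀ a ∈ X, (a.toOrd : Ordinal) < κ.ord → (a.toOrd : Ordinal) < η) ∧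
      (∀ i l, (∀ c ∈ l, (c.toOrd : Ordinal) < η) → ∀ a ∈ X, F i l a ∈ X) ∧
      ∀ j l, (∀ c ∈ l, c ∈ X ∧ (c.toOrd : Ordinal) < lam.ord) → G j l ∈ X := by
  classical
  obtain ⟨S, W, D, hW, hD, hDcov⟩ := hκ.exists_fine (succ lam).ord.ToType
  have hreg := hκ.isRegular
  have hω : ℵ₀ < κ := hκ.1
  have hWω : CountableInterFilter (W : Filter S) :=
    CardinalInterFilter.toCountableInterFilter _ hω
  obtain ⟨A, hA⟩ : ∃ A : Type u, A = (succ lam).ord.ToType := ⟨_, rfl⟩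
  have hκle : κ.ord ≤ (succ lam).ord := Cardinal.ord_le_ord.2 (hlam.trans (Order.le_succ _))
  have hlamle : lam.ord ≤ (succ lam).ord := Cardinal.ord_le_ord.2 (Order.le_succ _)
  obtain ⟨U, hUdef⟩ : ∃ U : Set (succ lam).ord.ToType,
    U = {a | (a.toOrd : Ordinal) < lam.ord} := ⟨_, rfl⟩
  obtain ⟨K, hKdef⟩ : ∃ K : Set (succ lam).ord.ToType,
    K = {a | (a.toOrd : Ordinal) < κ.ord} := ⟨_, rfl⟩
  have hUmem : ∀ a, a ∈ U ↔ (a.toOrd : Ordinal) < lam.ord := fun a => by rw [hUdef]; rfl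
  have hKmem : ∀ a, a ∈ K ↔ (a.toOrd : Ordinal) < κ.ord := fun a => by rw [hKdef]; rfl
  have hU : #U = lam := by rw [hUdef, card_below hlamle, card_ord]
  have hK : #K = κ := by rw [hKdef, card_below hκle, card_ord]
  have hKU : K ⊆ U := fun a ha =>
    (hUmem a).2 (((hKmem a).1 ha).trans_le (Cardinal.ord_le_ord.2 hlam))
  have hlim : IsSuccLimit κ.ord := isSuccLimit_ord hω.le
  have hKs : ∀ b ∈ K, #{c : (succ lam).ord.ToType | c ∈ K ∧ c ≤ b} < κ := by
    intro b hb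
    have h1 : {c : (succ lam).ord.ToType | c ∈ K ∧ c ≤ b} ⊆
        {c | (c.toOrd : Ordinal) < succ (b.toOrd : Ordinal)} := by
      intro c hc
      have h2 : ¬ b < c := not_lt.2 hc.2
      rw [← toOrd_lt, not_lt] at h2
      exact Order.lt_succ_iff.2 h2
    have h3 : succ (b.toOrd : Ordinal) < κ.ord := hlim.succ_lt ((hKmem b).1 hb)
    refine (Cardinal.mk_le_mk_of_subset h1).trans_lt ?_
    rw [card_below (h3.le.trans hκle)]
    exact lt_ord.1 h3
  have hKb : ∀ x, ∃ b ∈ K, ∀ c ∈ D x, c ∈ K → c < b := by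
    intro x
    have h1 : (⨆ c : (D x ∩ K : Set (succ lam).ord.ToType),
        succ (c.1.toOrd : Ordinal)) < κ.ord := by
      refine Ordinal.iSup_lt_of_lt_cof ?_ ?_
      · rw [hreg.cof_ord]
        exact (Cardinal.mk_le_mk_of_subset inter_subset_left).trans_lt (hD x)
      · exact fun c => hlim.succ_lt ((hKmem _).1 c.2.2)
    refine ⟨Ordinal.ToType.mk ⟨_, h1.trans_le hκle⟩, ?_, ?_⟩
    · rw [hKmem]
      simpa [Ordinal.ToType.toOrd] using h1
    · intro c hc hcK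
      rw [← toOrd_lt]
      have h2 : succ (c.toOrd : Ordinal) ≤ (⨆ c : (D x ∩ K : Set (succ lam).ord.ToType),
          succ (c.1.toOrd : Ordinal)) :=
        Ordinal.le_iSup (fun c : (D x ∩ K : Set (succ lam).ord.ToType) =>
          succ (c.1.toOrd : Ordinal)) ⟨c, hc, hcK⟩
      refine (Order.lt_succ _).trans_le (h2.trans (le_of_eq ?_))
      simp [Ordinal.ToType.toOrd]
  obtain ⟨r, C, E, hrK, hCU, hCκ, hCE, hP, hPE, hPC, hE⟩ :=
    good_point W hω D hD hDcov (hω.le.trans hlam) hU (mk_ord_toType _) hKU hK hKs hKb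
      (ι := ι) hι F (max ν #J) (max_lt hν hJ)
  -- the parameters are the ordinals below `η`
  have hrκ : (r.toOrd : Ordinal) < κ.ord := (hKmem r).1 hrK
  have hPeq : {c : (succ lam).ord.ToType | c ∈ K ∧ c < r} =
      {c | (c.toOrd : Ordinal) < (r.toOrd : Ordinal)} := by
    ext c
    constructor
    · rintro ⟨_, h⟩
      exact toOrd_lt.2 h
    · intro h
      exact ⟨(hKmem c).2 (lt_trans h hrκ), toOrd_lt.1 h⟩
  have hνη : ν.ord ≤ (r.toOrd : Ordinal) := by
    rw [Cardinal.ord_le]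
    have h1 := ((le_max_left ν #J).trans (le_max_left _ _)).trans hP
    rw [hPeq, card_below (hrκ.le.trans hκle)] at h1
    exact h1
  rcases isEmpty_or_nonempty J with hJe | hJne
  · obtain ⟨X, μ, hμ, hX, hXU, hXK, hXF⟩ := build_one hKU hCκ hCE F hP hPE hE
    refine ⟨X, r.toOrd, μ, hνη, hrκ, hμ, hX, ?_, ?_, ?_, ?_, ?_⟩
    · rw [← hXU]
      congr 2
      ext a
      rw [mem_inter_iff, hUmem]
      rfl
    · intro a ha
      exact (hXK a ((hKmem a).2 (ha.trans hrκ))).2 (toOrd_lt.1 ha)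
    · intro _ a ha haκ
      exact toOrd_lt.2 ((hXK a ((hKmem a).2 haκ)).1 ha)
    · intro i l hl a ha
      exact hXF i l (fun c hc => ⟨(hKmem c).2 ((hl c hc).trans hrκ), toOrd_lt.1 (hl c hc)⟩) a ha
    · intro j
      exact (hJe.false j).elim
  · have hω' : ℵ₀ ≤ #{c : (succ lam).ord.ToType | c ∈ K ∧ c < r} :=
      ((le_max_left _ _).trans (le_max_right _ _)).trans hP
    have hι' : #ι ≤ #{c : (succ lam).ord.ToType | c ∈ K ∧ c < r} :=
      ((le_max_right _ _).trans (le_max_right _ _)).trans hP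
    have hJ' : #J ≤ #{c : (succ lam).ord.ToType | c ∈ K ∧ c < r} :=
      ((le_max_right _ _).trans (le_max_left _ _)).trans hP
    obtain ⟨X, μ, hμ, hX, hXU, hXP, hXF, hXG⟩ := build_two hCU hCκ hCE F G hω' hι' hJ' hPC
      (fun a ha b hb => (hE a ha b hb).1)
    refine ⟨X, r.toOrd, μ, hνη, hrκ, hμ, hX, ?_, ?_, ?_, ?_, ?_⟩
    · rw [← hXU]
      congr 2
      ext a
      rw [mem_inter_iff, hUmem]
      rfl
    · intro a ha
      exact hXP ⟨(hKmem a).2 (ha.trans hrκ), toOrd_lt.1 ha⟩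
    · intro hJe
      exact (hJe.false hJne.some).elim
    · intro i l hl a ha
      exact hXF i l (fun c hc => ⟨(hKmem c).2 ((hl c hc).trans hrκ), toOrd_lt.1 (hl c hc)⟩) a ha
    · intro j l hl
      exact hXG j l fun c hc => ⟨(hl c hc).1, (hUmem c).2 (hl c hc).2⟩

end Pool.Agent.Lib.MP_54fe2d_lc.UC
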