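import Pool.Agent.Lib.MP_54fe2d_lc.UC.Core

/-!
# Operations with parameters below `κ`
-/

set_option autoImplicit false

namespace Pool.Agent.Lib.MP_54fe2d_lc.UC

open Cardinal Filter Set Order

universe u

variable {S A ι : Type u} {κ : Cardinal.{u}}

/-- successive application of operations -/
def act (F : ι → List A → A → A) (p : List (ι × List A)) (a : A) : A :=
  p.foldr (fun q y => F q.1 q.2 y) a

/-- the elements which are reached from `a` by operations with parameters in `P` -/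
def R (F : ι → List A → A → A) (P : Set A) (a : A) : Set A :=
  {b | ∃ p : List (ι × List A), (∀ q ∈ p, ∀ c ∈ q.2, c ∈ P) ∧ act F p a = b}

theorem self_mem_R (F : ι → List A → A → A) (P : Set A) (a : A) : a ∈ R F P a :=
  ⟨[], by simp, rfl⟩

theorem R_closed {F : ι → List A → A → A} {P : Set A} {a b : A} (h : b ∈ R F P a) (i : ι)
    (l : List A) (hl : ∀ c ∈ l, c ∈ P) : F i l b ∈ R F P a := by
  obtain ⟨p, hp, rfl⟩ := h
  refine ⟨(i, l) :: p, ?_, rfl⟩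
  intro q hq
  rcases List.mem_cons.1 hq with rfl | hq
  · exact hl
  · exact hp q hq

theorem R_trans {F : ι → List A → A → A} {P : Set A} {a b c : A} (hb : b ∈ R F P a)
    (hc : c ∈ R F P b) : c ∈ R F P a := by
  obtain ⟨p, hp, rfl⟩ := hb
  obtain ⟨p', hp', rfl⟩ := hc
  refine ⟨p' ++ p, ?_, ?_⟩
  · intro q hq
    rcases List.mem_append.1 hq with hq | hq
    · exact hp' q hq
    · exact hp q hq
  · simp [act, List.foldr_append]

theorem R_subset {F : ι → List A → A → A} {P X : Set A} {a : A} (ha : a ∈ X)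
    (hX : ∀ i l, (∀ c ∈ l, c ∈ P) → ∀ b ∈ X, F i l b ∈ X) : R F P a ⊆ X := by
  rintro b ⟨p, hp, rfl⟩
  induction p with
  | nil => exact ha
  | cons q p ih =>
    have h1 := ih fun q' hq' => hp q' (List.mem_cons_of_mem _ hq')
    exact hX q.1 q.2 (hp q List.mem_cons_self) _ h1

theorem exists_list {P : Set A} (l : List A) (hl : ∀ c ∈ l, c ∈ P) :
    ∃ l' : List P, l'.map (fun c : P => (c : A)) = l := by
  induction l with
  | nil => exact ⟨[], rfl⟩
  | cons c l ih =>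
    obtain ⟨l', hl'⟩ := ih fun c' hc' => hl c' (List.mem_cons_of_mem _ hc')
    refine ⟨⟨c, hl c List.mem_cons_self⟩ :: l', ?_⟩
    rw [List.map_cons, hl']

/-- the paths with parameters in `P` -/
def paths (ι : Type u) (P : Set A) : Set (List (ι × List A)) :=
  {p | ∀ q ∈ p, ∀ c ∈ q.2, c ∈ P}

theorem exists_path {P : Set A} (p : List (ι × List A)) (hp : p ∈ paths ι P) :
    ∃ p' : List (ι × List P), p'.map (fun q : ι × List P => (q.1, q.2.map (fun c : P => (c : A)))) = p := by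
  induction p with
  | nil => exact ⟨[], rfl⟩
  | cons q p ih =>
    obtain ⟨p', hp'⟩ := ih fun q' hq' => hp q' (List.mem_cons_of_mem _ hq')
    obtain ⟨l', hl'⟩ := exists_list q.2 (hp q List.mem_cons_self)
    refine ⟨(q.1, l') :: p', ?_⟩
    rw [List.map_cons, hp', hl']

theorem card_paths (P : Set A) {μ : Cardinal.{u}} (hμ : ℵ₀ ≤ μ)
    (hι : #ι ≤ μ) (hP : #P ≤ μ) : #(paths ι P) ≤ μ := by
  have h1 : #(List (ι × List P)) ≤ μ := by
    refine (mk_list_le_max _).trans (max_le hμ ?_)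
    rw [Cardinal.mk_prod, Cardinal.lift_id, Cardinal.lift_id]
    have h2 : #(List P) ≤ μ := (mk_list_le_max _).trans (max_le hμ hP)
    exact (mul_le_mul' hι h2).trans (Cardinal.mul_eq_self hμ).le
  refine le_trans ?_ h1
  have h2 : paths ι P ⊆ Set.range (fun p : List (ι × List P) =>
      p.map (fun q : ι × List P => (q.1, q.2.map (fun c : P => (c : A))))) := by
    intro p hp
    obtain ⟨p', hp'⟩ := exists_path p hp
    exact ⟨p', hp'⟩
  exact (Cardinal.mk_le_mk_of_subset h2).trans Cardinal.mk_range_le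

theorem card_R (F : ι → List A → A → A) (P : Set A) (a : A) {μ : Cardinal.{u}} (hμ : ℵ₀ ≤ μ)
    (hι : #ι ≤ μ) (hP : #P ≤ μ) : #(R F P a) ≤ μ := by
  have h1 : R F P a ⊆ (fun p => act F p a) '' (paths ι P) := by
    rintro b ⟨p, hp, rfl⟩
    exact ⟨p, hp, rfl⟩
  exact (Cardinal.mk_le_mk_of_subset h1).trans (Cardinal.mk_image_le.trans (card_paths P hμ hι hP))

/-- a finite list of elements of a nonempty set has an upper bound in the set -/
theorem exists_bound [LinearOrder A] {T : Set A} (hT : T.Nonempty) (l : List A)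
    (hl : ∀ c ∈ l, c ∈ T) : ∃ m ∈ T, ∀ c ∈ l, c ≤ m := by
  induction l with
  | nil => obtain ⟨m, hm⟩ := hT; exact ⟨m, hm, by simp⟩
  | cons c l ih =>
    obtain ⟨m, hm, hml⟩ := ih fun c' hc' => hl c' (List.mem_cons_of_mem _ hc')
    rcases le_total c m with h | h
    · refine ⟨m, hm, fun c' hc' => ?_⟩
      rcases List.mem_cons.1 hc' with rfl | hc'
      · exact h
      · exact hml c' hc'
    · refine ⟨c, hl c List.mem_cons_self, fun c' hc' => ?_⟩
      rcases List.mem_cons.1 hc' with rfl | hc'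
      · exact le_rfl
      · exact (hml c' hc').trans h

/-- The good points of one complete fine ultrafilter. -/
theorem good_point [LinearOrder A] [WellFoundedLT A] (W : Ultrafilter S)
    [CountableInterFilter (W : Filter S)] [CardinalInterFilter (W : Filter S) κ] (hκ : ℵ₀ < κ)
    (D : S → Set A) (hD : ∀ x, #(D x) < κ) (hDcov : Cov W univ D)
    {lam : Cardinal.{u}} (hlam : ℵ₀ ≤ lam) {U K : Set A} (hU : #U = lam) (hA : #A = succ lam)
    (hKU : K ⊆ U) (hK : #K = κ) (hKs : ∀ b ∈ K, #{c : A | c ∈ K ∧ c ≤ b} < κ)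
    (hKb : ∀ x, ∃ b ∈ K, ∀ c ∈ D x, c ∈ K → c < b)
    (hι : #ι < κ) (F : ι → List A → A → A) (ν : Cardinal.{u}) (hν : ν < κ) :
    ∃ (r : A) (C E : Set A), r ∈ K ∧ C ⊆ U ∧ #C < κ ∧ succ #C ≤ #E ∧
      max ν (max ℵ₀ #ι) ≤ #{c : A | c ∈ K ∧ c < r} ∧ {c : A | c ∈ K ∧ c < r} ⊆ E ∧
      {c : A | c ∈ K ∧ c < r} ⊆ C ∧
      ∀ a ∈ E, ∀ b ∈ R F {c : A | c ∈ K ∧ c < r} a, (b ∈ U → b ∈ C) ∧ (b ∈ K → b < r) := by
  classical
  obtain ⟨CU, hCU, hCUmin⟩ := exists_minCov W U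
  obtain ⟨CA, hCA, hCAmin⟩ := exists_minCov W (univ : Set A)
  have hlt := strict hκ hlam hU hA hCU hCUmin hCA hCAmin
  -- the least function above all constants
  obtain ⟨ρ, ⟨hρK, hρ⟩, hρmin⟩ := exists_min W
    (fun g : S → A => (∀ x, g x ∈ K) ∧ ∀ b ∈ K, ∀ᶠ x in (W : Filter S), b < g x) (by
      choose g hg1 hg2 using hKb
      exact ⟨g, hg1, fun b hb => (hDcov b (mem_univ b)).mono fun x hx => hg2 x b hx hb⟩)
  have hKne : K.Nonempty := by
    obtain ⟨x⟩ := W.neBot.nonempty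
    exact ⟨ρ x, hρK x⟩
  obtain ⟨b₀, hb₀⟩ := hKne
  -- functions below `ρ` are bounded
  have hbdd : ∀ m : S → A, (∀ᶠ x in (W : Filter S), m x ∈ K ∧ m x < ρ x) →
      ∃ b ∈ K, ∀ᶠ x in (W : Filter S), m x ≤ b := by
    intro m hm
    by_contra hcon
    let m' : S → A := fun x => if m x ∈ K then m x else b₀
    have hm' : ∀ᶠ x in (W : Filter S), m' x = m x := hm.mono fun x hx => if_pos hx.1
    have h1 : ∀ b ∈ K, ∀ᶠ x in (W : Filter S), b < m' x := by
      intro b hb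
      have h3 : ∀ᶠ x in (W : Filter S), ¬ m x ≤ b :=
        Ultrafilter.eventually_not.2 fun hc => hcon ⟨b, hb, hc⟩
      filter_upwards [h3, hm'] with x hx1 hx2
      rw [hx2]; exact not_le.1 hx1
    have h4 := hρmin m' ⟨fun x => by
      by_cases h : m x ∈ K
      · simp only [m', if_pos h]; exact h
      · simp only [m', if_neg h]; exact hb₀, h1⟩
    obtain ⟨x, ⟨hx1, hx2⟩, hx3⟩ := ((h4.and hm').and hm).exists
    rw [hx2] at hx1
    exact absurd hx3.2 (not_lt.2 hx1)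
  -- paths with parameters below `ρ` are constant
  have hpath : ∀ p : S → List (ι × List A),
      (∀ᶠ x in (W : Filter S), ∀ q ∈ p x, ∀ c ∈ q.2, c ∈ K ∧ c < ρ x) →
      ∃ p₀, ∀ᶠ x in (W : Filter S), p x = p₀ := by
    intro p hp
    have h1 : ∀ᶠ x in (W : Filter S), ∃ m, (m ∈ K ∧ m < ρ x) ∧ ∀ q ∈ p x, ∀ c ∈ q.2, c ≤ m := by
      filter_upwards [hp, hρ b₀ hb₀] with x hx1 hx2
      obtain ⟨m, hm1, hm2⟩ := exists_bound (T := {c | c ∈ K ∧ c < ρ x}) ⟨b₀, hb₀, hx2⟩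
        ((p x).flatMap Prod.snd) (by
          intro c hc
          obtain ⟨q, hq, hcq⟩ := List.mem_flatMap.1 hc
          exact hx1 q hq c hcq)
      exact ⟨m, hm1, fun q hq c hc => hm2 c (List.mem_flatMap.2 ⟨q, hq, hc⟩)⟩
    have h2 : ∃ m : S → A, ∀ᶠ x in (W : Filter S), (m x ∈ K ∧ m x < ρ x) ∧
        ∀ q ∈ p x, ∀ c ∈ q.2, c ≤ m x := by
      refine ⟨fun x => if h : ∃ m, (m ∈ K ∧ m < ρ x) ∧ ∀ q ∈ p x, ∀ c ∈ q.2, c ≤ m
        then h.choose else b₀, ?_⟩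
      filter_upwards [h1] with x hx
      rw [dif_pos hx]
      exact hx.choose_spec
    obtain ⟨m, hm⟩ := h2
    obtain ⟨b, hb, hmb⟩ := hbdd m (hm.mono fun x hx => hx.1)
    have h3 : ∀ᶠ x in (W : Filter S), p x ∈ paths ι {c : A | c ∈ K ∧ c ≤ b} := by
      filter_upwards [hp, hm, hmb] with x hx1 hx2 hx3
      exact fun q hq c hc => ⟨(hx1 q hq c hc).1, (hx2.2 q hq c hc).trans hx3⟩
    have h5 : #(paths ι {c : A | c ∈ K ∧ c ≤ b}) < κ :=
      (card_paths _ (le_max_left ℵ₀ (max #ι #{c : A | c ∈ K ∧ c ≤ b}))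
        ((le_max_left _ _).trans (le_max_right _ _))
        ((le_max_right _ _).trans (le_max_right _ _))).trans_lt
        (max_lt hκ (max_lt hι (hKs b hb)))
    obtain ⟨v, _, hv⟩ := exists_const (κ := κ) W p _ h5 h3
    exact ⟨v, hv⟩
  -- the parameters
  obtain ⟨P, hPdef⟩ : ∃ P : S → Set A, P = fun x => {c : A | c ∈ K ∧ c < ρ x} := ⟨_, rfl⟩
  have hPmem : ∀ x c, c ∈ P x ↔ c ∈ K ∧ c < ρ x := fun x c => by rw [hPdef]; rfl
  -- the good elements
  obtain ⟨E, hEdef⟩ : ∃ E : S → Set A, E = fun x => {a : A | ∀ b ∈ R F (P x) a,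
    (b ∈ U → b ∈ CU x) ∧ (b ∈ K → b < ρ x)} := ⟨_, rfl⟩
  have hEmem : ∀ x a, a ∈ E x ↔ ∀ b ∈ R F (P x) a,
    (b ∈ U → b ∈ CU x) ∧ (b ∈ K → b < ρ x) := fun x a => by rw [hEdef]; rfl
  have hEcov : Cov W univ E := by
    intro a _
    by_contra hcon
    rw [← Ultrafilter.eventually_not] at hcon
    have h1 : ∀ᶠ x in (W : Filter S), ∃ p : List (ι × List A), p ∈ paths ι (P x) ∧
        ¬ ((act F p a ∈ U → act F p a ∈ CU x) ∧ (act F p a ∈ K → act F p a < ρ x)) := by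
      filter_upwards [hcon] with x hx
      rw [hEmem] at hx
      push Not at hx
      obtain ⟨b, ⟨p, hp, rfl⟩, hb⟩ := hx
      exact ⟨p, hp, fun hc => by
        have h2 := hb hc.1
        exact absurd (hc.2 h2.1) (not_lt.2 h2.2)⟩
    have h2 : ∃ p : S → List (ι × List A), ∀ᶠ x in (W : Filter S), p x ∈ paths ι (P x) ∧
        ¬ ((act F (p x) a ∈ U → act F (p x) a ∈ CU x) ∧
          (act F (p x) a ∈ K → act F (p x) a < ρ x)) := by
      refine ⟨fun x => if h : ∃ p : List (ι × List A), p ∈ paths ι (P x) ∧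
        ¬ ((act F p a ∈ U → act F p a ∈ CU x) ∧ (act F p a ∈ K → act F p a < ρ x))
        then h.choose else [], ?_⟩
      filter_upwards [h1] with x hx
      rw [dif_pos hx]
      exact hx.choose_spec
    obtain ⟨p, hp⟩ := h2
    obtain ⟨p₀, hp₀⟩ := hpath p (hp.mono fun x hx q hq c hc => (hPmem x c).1 (hx.1 q hq c hc))
    have h3 : ∀ᶠ x in (W : Filter S), act F p₀ a ∈ U → act F p₀ a ∈ CU x := by
      by_cases h : act F p₀ a ∈ U
      · exact (hCU _ h).mono fun x hx _ => hx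
      · exact Eventually.of_forall fun x hx => absurd hx h
    have h4 : ∀ᶠ x in (W : Filter S), act F p₀ a ∈ K → act F p₀ a < ρ x := by
      by_cases h : act F p₀ a ∈ K
      · exact (hρ _ h).mono fun x hx _ => hx
      · exact Eventually.of_forall fun x hx => absurd hx h
    obtain ⟨x, ⟨⟨hx1, hx2⟩, hx3⟩, hx4⟩ := (((hp.and hp₀).and h3).and h4).exists
    rw [hx2] at hx1
    exact hx1.2 ⟨hx3, hx4⟩
  -- the parameters are good elements
  have hPE : ∀ᶠ x in (W : Filter S), P x ⊆ E x := by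
    by_contra hcon
    rw [← Ultrafilter.eventually_not] at hcon
    obtain ⟨c, hc⟩ : ∃ c : S → A, ∀ᶠ x in (W : Filter S), c x ∈ P x ∧ c x ∉ E x := by
      refine ⟨fun x => if h : ∃ c, c ∈ P x ∧ c ∉ E x then h.choose else b₀, ?_⟩
      filter_upwards [hcon] with x hx
      have hx' : ∃ c, c ∈ P x ∧ c ∉ E x := by
        by_contra h
        push Not at h
        exact hx h
      rw [dif_pos hx']
      exact hx'.choose_spec
    obtain ⟨b, hb, hcb⟩ := hbdd c (hc.mono fun x hx => (hPmem x _).1 hx.1)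
    obtain ⟨v, _, hv⟩ := exists_const (κ := κ) W c {c : A | c ∈ K ∧ c ≤ b} (hKs b hb) (by
      filter_upwards [hc, hcb] with x hx1 hx2
      exact ⟨((hPmem x _).1 hx1.1).1, hx2⟩)
    obtain ⟨x, ⟨hx1, hx2⟩, hx3⟩ := ((hc.and hv).and (hEcov v (mem_univ v))).exists
    rw [hx2] at hx1
    exact hx1.2 hx3
  -- many parameters
  have hν' : ∀ᶠ x in (W : Filter S), max ν (max ℵ₀ #ι) ≤ #(P x) := by
    have h1 : max ν (max ℵ₀ #ι) < κ := max_lt hν (max_lt hκ hι)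
    have h2 : Cov W K P := by
      intro b hb
      filter_upwards [hρ b hb] with x hx
      exact (hPmem x b).2 ⟨hb, hx⟩
    exact le_card h2 h1 (h1.le.trans hK.ge)
  have hCUκ : ∀ᶠ x in (W : Filter S), #(CU x) < κ := by
    filter_upwards [hCUmin D fun b _ => hDcov b (mem_univ b)] with x hx
    exact hx.trans_lt (hD x)
  obtain ⟨x, hx1, hx2, hx3, hx4, hx5⟩ := (hlt.and ((hCAmin E hEcov).and (hPE.and
    (hν'.and hCUκ)))).exists
  have hPx : P x = {c : A | c ∈ K ∧ c < ρ x} := by rw [hPdef]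
  have hPU : P x ⊆ CU x := by
    intro c hc
    have h1 := (hEmem x c).1 (hx3 hc) c (self_mem_R F _ c)
    exact h1.1 (hKU ((hPmem x c).1 hc).1)
  have hCle : #(CU x ∩ U : Set A) ≤ #(CU x) := Cardinal.mk_le_mk_of_subset fun a ha => ha.1
  refine ⟨ρ x, CU x ∩ U, E x, hρK x, inter_subset_right, hCle.trans_lt hx5,
    (Order.succ_le_of_lt (hCle.trans_lt hx1)).trans hx2, hPx ▸ hx4, hPx ▸ hx3, ?_, ?_⟩
  · rw [← hPx]
    exact fun c hc => ⟨hPU hc, hKU ((hPmem x c).1 hc).1⟩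
  · intro a ha b hb
    rw [← hPx] at hb
    have h1 := (hEmem x a).1 ha b hb
    exact ⟨fun h => ⟨h1.1 h, h⟩, h1.2⟩

/-- A closed set which meets `K` in an initial segment. -/
theorem build_one [LinearOrder A] {U K C E : Set A} {r : A} (hKU : K ⊆ U) (hCκ : #C < κ)
    (hCE : succ #C ≤ #E) (F : ι → List A → A → A) {ν : Cardinal.{u}}
    (hν : max ν (max ℵ₀ #ι) ≤ #{c : A | c ∈ K ∧ c < r})
    (hPE : {c : A | c ∈ K ∧ c < r} ⊆ E)
    (hE : ∀ a ∈ E, ∀ b ∈ R F {c : A | c ∈ K ∧ c < r} a, (b ∈ U → b ∈ C) ∧ (b ∈ K → b < r)) :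
    ∃ (X : Set A) (μ : Cardinal.{u}), μ < κ ∧ #X = succ μ ∧
      #(X ∩ U : Set A) = μ ∧ (∀ c ∈ K, c ∈ X ↔ c < r) ∧
      ∀ i l, (∀ c ∈ l, c ∈ K ∧ c < r) → ∀ a ∈ X, F i l a ∈ X := by
  classical
  obtain ⟨P, hPdef⟩ : ∃ P : Set A, P = {c : A | c ∈ K ∧ c < r} := ⟨_, rfl⟩
  have hPmem : ∀ c, c ∈ P ↔ c ∈ K ∧ c < r := fun c => by rw [hPdef]; rfl
  rw [← hPdef] at hν hPE hE
  have hωP : ℵ₀ ≤ #P := ((le_max_left _ _).trans (le_max_right _ _)).trans hν
  have hιP : #ι ≤ #P := ((le_max_right _ _).trans (le_max_right _ _)).trans hν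
  -- a first closed set
  obtain ⟨I, hIE, hI⟩ := le_mk_iff_exists_subset.1 hCE
  obtain ⟨X₀, hX₀⟩ : ∃ X₀ : Set A, X₀ = ⋃ a ∈ I ∪ P, R F P a := ⟨_, rfl⟩
  have hX₀mem : ∀ b, b ∈ X₀ ↔ ∃ a, a ∈ I ∪ P ∧ b ∈ R F P a := fun b => by
    rw [hX₀]; simp only [mem_iUnion, exists_prop]
  have hclosed₀ : ∀ i l, (∀ c ∈ l, c ∈ P) → ∀ a ∈ X₀, F i l a ∈ X₀ := by
    intro i l hl a ha
    obtain ⟨a', ha', ha2⟩ := (hX₀mem a).1 ha
    exact (hX₀mem _).2 ⟨a', ha', R_closed ha2 i l hl⟩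
  have hgood : ∀ b ∈ X₀, (b ∈ U → b ∈ C) ∧ (b ∈ K → b < r) := by
    intro b hb
    obtain ⟨a, ha, hba⟩ := (hX₀mem b).1 hb
    have haE : a ∈ E := ha.elim (fun h => hIE h) (fun h => hPE h)
    exact hE a haE b hba
  have hPX₀ : P ⊆ X₀ := fun c hc => (hX₀mem c).2 ⟨c, Or.inr hc, self_mem_R F _ c⟩
  have hIX₀ : I ⊆ X₀ := fun c hc => (hX₀mem c).2 ⟨c, Or.inl hc, self_mem_R F _ c⟩
  have hX₀U : #(X₀ ∩ U : Set A) ≤ #(C) :=
    Cardinal.mk_le_mk_of_subset fun b hb => (hgood b hb.1).1 hb.2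
  have hPμ : #(P) ≤ #(X₀ ∩ U : Set A) :=
    Cardinal.mk_le_mk_of_subset fun c hc => ⟨hPX₀ hc, hKU ((hPmem c).1 hc).1⟩
  -- the final set
  have hJ0 : succ #(X₀ ∩ U : Set A) ≤ #X₀ :=
    (Order.succ_le_succ hX₀U).trans (hI.ge.trans (Cardinal.mk_le_mk_of_subset hIX₀))
  obtain ⟨J, hJX, hJ⟩ := le_mk_iff_exists_subset.1 hJ0
  obtain ⟨X, hX⟩ : ∃ X : Set A, X = ⋃ a ∈ J ∪ (X₀ ∩ U), R F P a := ⟨_, rfl⟩
  have hXmem : ∀ b, b ∈ X ↔ ∃ a, a ∈ J ∪ (X₀ ∩ U) ∧ b ∈ R F P a := fun b => by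
    rw [hX]; simp only [mem_iUnion, exists_prop]
  have hXX₀ : X ⊆ X₀ := by
    intro b hb
    obtain ⟨a, ha, hba⟩ := (hXmem b).1 hb
    have haX : a ∈ X₀ := ha.elim (fun h => hJX h) (fun h => h.1)
    exact R_subset haX hclosed₀ hba
  have hXU : X ∩ U = X₀ ∩ U := by
    apply Subset.antisymm
    · exact fun b hb => ⟨hXX₀ hb.1, hb.2⟩
    · exact fun b hb => ⟨(hXmem b).2 ⟨b, Or.inr hb, self_mem_R F _ b⟩, hb.2⟩
  have hωμ : ℵ₀ ≤ #(X₀ ∩ U : Set A) := hωP.trans hPμ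
  refine ⟨X, #(X₀ ∩ U : Set A), hX₀U.trans_lt hCκ, ?_, by rw [hXU], ?_, ?_⟩
  · apply le_antisymm
    · rw [hX]
      refine (Cardinal.mk_biUnion_le _ _).trans ?_
      have h1 : #(J ∪ (X₀ ∩ U) : Set A) ≤ succ #(X₀ ∩ U : Set A) := by
        refine (Cardinal.mk_union_le _ _).trans ?_
        rw [hJ]
        exact (Cardinal.add_le_of_le (hωμ.trans (Order.le_succ _)) le_rfl (Order.le_succ _))
      have h2 : (⨆ a : (J ∪ (X₀ ∩ U) : Set A), #(R F P a.1)) ≤ #(X₀ ∩ U : Set A) :=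
        ciSup_le' fun a => card_R F _ _ hωμ (hιP.trans hPμ) hPμ
      refine (mul_le_mul' h1 (h2.trans (Order.le_succ _))).trans ?_
      exact (Cardinal.mul_eq_self (hωμ.trans (Order.le_succ _))).le
    · rw [← hJ]
      exact Cardinal.mk_le_mk_of_subset fun b hb =>
        (hXmem b).2 ⟨b, Or.inl hb, self_mem_R F _ b⟩
  · intro c hc
    constructor
    · intro hcX
      exact (hgood c (hXX₀ hcX)).2 hc
    · intro hcr
      have h1 : c ∈ P := (hPmem c).2 ⟨hc, hcr⟩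
      exact (hXmem c).2 ⟨c, Or.inr ⟨hPX₀ h1, hKU hc⟩, self_mem_R F _ c⟩
  · intro i l hl a ha
    obtain ⟨a', ha', ha2⟩ := (hXmem a).1 ha
    exact (hXmem _).2 ⟨a', ha', R_closed ha2 i l fun c hc => (hPmem c).2 (hl c hc)⟩

end Pool.Agent.Lib.MP_54fe2d_lc.UC
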