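import Pool.Agent.Lib.MP_54fe2d_lc.UC.Two

/-!
# Strongly compact cardinals: regularity and fine ultrafilters
-/

set_option autoImplicit false

namespace Pool.Agent.Lib.MP_54fe2d_lc.UC

open Cardinal Filter Set Order

universe u

/-- `κ` is strongly compact: it is uncountable and every proper `κ`-complete filter on any set
extends to a `κ`-complete ultrafilter. -/
def StronglyCompact (κ : Cardinal.{u}) : Prop :=
  ℵ₀ < κ ∧ ∀ (S : Type u) (f : Filter S), f.NeBot → CardinalInterFilter f κ →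
    ∃ W : Ultrafilter S, (W : Filter S) ≤ f ∧ CardinalInterFilter (W : Filter S) κ

variable {κ : Cardinal.{u}}

/-- A strongly compact cardinal is regular. -/
theorem StronglyCompact.isRegular (hκ : StronglyCompact κ) : κ.IsRegular := by
  classical
  by_contra hreg
  have hω : ℵ₀ ≤ κ := hκ.1.le
  have hcof : κ.ord.cof < κ := by
    by_contra hc
    exact hreg ⟨hω, not_lt.1 hc⟩
  have hsucc : (succ κ).IsRegular := isRegular_succ hω
  -- an ultrafilter on `κ⁺`
  obtain ⟨T, hT⟩ : ∃ T : Type u, T = (succ κ).ord.ToType := ⟨_, rfl⟩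
  subst hT
  obtain ⟨W, hWf, hW⟩ := hκ.2 (succ κ).ord.ToType (cocardinal _ hsucc) (by
    rw [← forall_mem_nonempty_iff_neBot]
    intro s hs
    rw [mem_cocardinal] at hs
    by_contra hne
    rw [not_nonempty_iff_eq_empty] at hne
    rw [hne, compl_empty, mk_univ, mk_ord_toType] at hs
    exact lt_irrefl _ hs)
    (CardinalInterFilter.of_cardinalInterFilter_of_le _ (Order.le_succ κ))
  -- closure under `κ` intersections
  have hint : ∀ s : κ.ord.ToType → Set (succ κ).ord.ToType, (∀ b, s b ∈ W) →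
      ⋂ b, s b ∈ (W : Filter (succ κ).ord.ToType) := by
    intro s hs
    obtain ⟨C, hC, hCc⟩ := Order.exists_cof_eq κ.ord.ToType
    rw [Ordinal.cof_toType] at hCc
    have h1 : ∀ c ∈ C, (⋂ b ∈ Iic c, s b) ∈ (W : Filter (succ κ).ord.ToType) := by
      intro c _
      refine (cardinal_bInter_mem (c := κ) ?_).2 fun b _ => hs b
      have h2 : #(Iic c) < κ := by
        have h3 : Iic c ⊆ Iio c ∪ {c} := fun x hx => (lt_or_eq_of_le hx).elim Or.inl Or.inr
        refine (Cardinal.mk_le_mk_of_subset h3).trans_lt ((Cardinal.mk_union_le _ _).trans_lt ?_)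
        exact Cardinal.add_lt_of_lt hω (mk_Iio_toType_ord_lt c)
          ((Cardinal.mk_singleton c).trans_lt (one_lt_aleph0.trans hκ.1))
      exact h2
    have h4 : (⋂ c ∈ C, ⋂ b ∈ Iic c, s b) ∈ (W : Filter (succ κ).ord.ToType) :=
      (cardinal_bInter_mem (c := κ) (hCc.trans_lt hcof)).2 h1
    refine mem_of_superset h4 ?_
    intro x hx
    refine mem_iInter.2 fun b => ?_
    obtain ⟨c, hc, hbc⟩ := hC b
    exact mem_iInter₂.1 (mem_iInter₂.1 hx c hc) b hbc
  -- the Ulam matrix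
  have hinj : ∀ x : (succ κ).ord.ToType, ∃ e : Iio x → κ.ord.ToType, Function.Injective e := by
    intro x
    have h1 : #(Iio x) ≤ #κ.ord.ToType := by
      rw [mk_ord_toType]
      exact Order.lt_succ_iff.1 (mk_Iio_toType_ord_lt x)
    exact ⟨_, (Cardinal.le_def _ _ |>.1 h1).some.injective⟩
  choose e he using hinj
  have hcol : ∀ a : (succ κ).ord.ToType, ∃ b : κ.ord.ToType,
      {x | ∃ h : a < x, e x ⟨a, h⟩ = b} ∈ (W : Filter (succ κ).ord.ToType) := by
    intro a
    by_contra hcon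
    push Not at hcon
    have h1 : ∀ b : κ.ord.ToType, {x | ∃ h : a < x, e x ⟨a, h⟩ = b}ᶜ ∈ W := fun b =>
      Ultrafilter.compl_mem_iff_notMem.2 (hcon b)
    have h2 := hint _ h1
    have h3 : Ioi a ∈ (W : Filter (succ κ).ord.ToType) := by
      apply hWf
      rw [mem_cocardinal]
      have h4 : (Ioi a)ᶜ ⊆ Iio a ∪ {a} := by
        intro x hx
        have hx' : x ≤ a := not_lt.1 hx
        exact (lt_or_eq_of_le hx').elim Or.inl Or.inr
      refine (Cardinal.mk_le_mk_of_subset h4).trans_lt ((Cardinal.mk_union_le _ _).trans_lt ?_)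
      exact Cardinal.add_lt_of_lt hsucc.aleph0_le (mk_Iio_toType_ord_lt a)
        ((Cardinal.mk_singleton a).trans_lt (one_lt_aleph0.trans_le hsucc.aleph0_le))
    obtain ⟨x, hx1, hx2⟩ := W.neBot.nonempty_of_mem (inter_mem h2 h3)
    exact mem_iInter.1 hx1 (e x ⟨a, hx2⟩) ⟨hx2, rfl⟩
  choose b hb using hcol
  have hnot : ¬ Function.Injective b := by
    intro h
    have := Cardinal.mk_le_of_injective h
    rw [mk_ord_toType, mk_ord_toType] at this
    exact absurd this (not_le.2 (Order.lt_succ κ))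
  rw [Function.not_injective_iff] at hnot
  obtain ⟨a, a', hab, hne⟩ := hnot
  obtain ⟨x, ⟨h1, h1'⟩, ⟨h2, h2'⟩⟩ := W.neBot.nonempty_of_mem (inter_mem (hb a) (hb a'))
  have h3 : e x ⟨a, h1⟩ = e x ⟨a', h2⟩ := by rw [h1', h2', hab]
  exact hne (congrArg Subtype.val (he x h3))

/-- The fine ultrafilter. -/
theorem StronglyCompact.exists_fine (hκ : StronglyCompact κ) (A : Type u) :
    ∃ (S : Type u) (W : Ultrafilter S) (D : S → Set A),
      CardinalInterFilter (W : Filter S) κ ∧ (∀ x, #(D x) < κ) ∧ Cov W univ D := by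
  classical
  have hreg := hκ.isRegular
  let f : Filter {s : Set A // #s < κ} :=
    { sets := {Z | ∃ B : Set A, #B < κ ∧ ∀ x : {s : Set A // #s < κ}, B ⊆ x.1 → x ∈ Z}
      univ_sets := ⟨∅, by rw [Cardinal.mk_emptyCollection]; exact hreg.pos, fun _ _ => mem_univ _⟩
      sets_of_superset := by
        rintro Z Z' ⟨B, hB, hZ⟩ hZZ'
        exact ⟨B, hB, fun x hx => hZZ' (hZ x hx)⟩
      inter_sets := by
        rintro Z Z' ⟨B, hB, hZ⟩ ⟨B', hB', hZ'⟩
        refine ⟨B ∪ B', (Cardinal.mk_union_le _ _).trans_lt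
          (Cardinal.add_lt_of_lt hκ.1.le hB hB'), fun x hx => ⟨?_, ?_⟩⟩
        · exact hZ x (subset_union_left.trans hx)
        · exact hZ' x (subset_union_right.trans hx) }
  have hmem : ∀ Z, Z ∈ f ↔ ∃ B : Set A, #B < κ ∧ ∀ x : {s : Set A // #s < κ}, B ⊆ x.1 → x ∈ Z :=
    fun Z => Iff.rfl
  have hne : f.NeBot := by
    rw [← forall_mem_nonempty_iff_neBot]
    intro Z hZ
    obtain ⟨B, hB, h⟩ := (hmem Z).1 hZ
    exact ⟨⟨B, hB⟩, h _ Subset.rfl⟩
  have hcompl : CardinalInterFilter f κ := by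
    constructor
    intro 𝒵 h𝒵 hall
    have h1 : ∀ Z : 𝒵, ∃ B : Set A, #B < κ ∧ ∀ x : {s : Set A // #s < κ}, B ⊆ x.1 → x ∈ Z.1 :=
      fun Z => (hmem Z.1).1 (hall Z.1 Z.2)
    choose B hB hBZ using h1
    refine (hmem _).2 ⟨⋃ Z, B Z, ?_, ?_⟩
    · exact (card_iUnion_lt_iff_forall_of_isRegular hreg h𝒵).2 hB
    · intro x hx Z hZ
      exact hBZ ⟨Z, hZ⟩ x ((subset_iUnion B ⟨Z, hZ⟩).trans hx)
  obtain ⟨W, hWf, hW⟩ := hκ.2 _ f hne hcompl
  refine ⟨_, W, fun x => x.1, hW, fun x => x.2, ?_⟩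
  intro a _
  apply hWf
  refine (hmem _).2 ⟨{a}, ?_, fun x hx => hx rfl⟩
  rw [Cardinal.mk_singleton]
  exact one_lt_aleph0.trans hκ.1

end Pool.Agent.Lib.MP_54fe2d_lc.UC
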