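import Pool.Agent.Lib.MP_54fe2d_lc.UC.Par

/-!
# Unary operations with parameters together with arbitrary finitary operations on the small part
-/

set_option autoImplicit false

namespace Pool.Agent.Lib.MP_54fe2d_lc.UC

open Cardinal Filter Set Order

universe u

variable {A ι J : Type u} {κ : Cardinal.{u}}

/-- one step of the closure -/
def step (F : ι → List A → A → A) (G : J → List A → A) (P Y : Set A) : Set A :=
  (Y ∪ ⋃ a ∈ Y, R F P a) ∪ ⋃ j, G j '' {l | ∀ c ∈ l, c ∈ Y}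

theorem card_lists (Y : Set A) {μ : Cardinal.{u}} (hμ : ℵ₀ ≤ μ) (hY : #Y ≤ μ) :
    #{l : List A | ∀ c ∈ l, c ∈ Y} ≤ μ := by
  have h1 : #(List Y) ≤ μ := (mk_list_le_max _).trans (max_le hμ hY)
  refine le_trans ?_ h1
  have h2 : {l : List A | ∀ c ∈ l, c ∈ Y} ⊆
      Set.range (fun l : List Y => l.map (fun c : Y => (c : A))) := by
    intro l hl
    obtain ⟨l', hl'⟩ := exists_list l hl
    exact ⟨l', hl'⟩
  exact (Cardinal.mk_le_mk_of_subset h2).trans Cardinal.mk_range_le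

theorem card_biUnion_R (F : ι → List A → A → A) (P Y : Set A) {μ μ' : Cardinal.{u}}
    (hμ : ℵ₀ ≤ μ) (hμ' : μ ≤ μ') (hι : #ι ≤ μ) (hP : #P ≤ μ) (hY : #Y ≤ μ') :
    #(⋃ a ∈ Y, R F P a : Set A) ≤ μ' := by
  refine (Cardinal.mk_biUnion_le _ _).trans ?_
  have h2 : (⨆ a : Y, #(R F P a.1)) ≤ μ := ciSup_le' fun a => card_R F _ _ hμ hι hP
  exact (mul_le_mul' hY (h2.trans hμ')).trans (Cardinal.mul_eq_self (hμ.trans hμ')).le

theorem card_step (F : ι → List A → A → A) (G : J → List A → A) (P Y : Set A)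
    {μ : Cardinal.{u}} (hμ : ℵ₀ ≤ μ) (hι : #ι ≤ μ) (hJ : #J ≤ μ) (hP : #P ≤ μ) (hY : #Y ≤ μ) :
    #(step F G P Y) ≤ μ := by
  have hadd : μ + μ ≤ μ := (Cardinal.add_eq_self hμ).le
  have hmul : μ * μ ≤ μ := (Cardinal.mul_eq_self hμ).le
  refine (Cardinal.mk_union_le _ _).trans ((add_le_add ?_ ?_).trans hadd)
  · exact (Cardinal.mk_union_le _ _).trans
      ((add_le_add hY (card_biUnion_R F P Y hμ le_rfl hι hP hY)).trans hadd)
  · refine (Cardinal.mk_iUnion_le _).trans ((mul_le_mul' hJ ?_).trans hmul)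
    exact ciSup_le' fun i => Cardinal.mk_image_le.trans (card_lists Y hμ hY)

/-- the closure -/
def clo (F : ι → List A → A → A) (G : J → List A → A) (P Y : Set A) : ℕ → Set A
  | 0 => Y
  | n + 1 => step F G P (clo F G P Y n)

theorem card_clo (F : ι → List A → A → A) (G : J → List A → A) (P Y : Set A)
    {μ : Cardinal.{u}} (hμ : ℵ₀ ≤ μ) (hι : #ι ≤ μ) (hJ : #J ≤ μ) (hP : #P ≤ μ) (hY : #Y ≤ μ) :
    #(⋃ n, clo F G P Y n : Set A) ≤ μ := by
  have h1 : ∀ n, #(clo F G P Y n) ≤ μ := by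
    intro n
    induction n with
    | zero => exact hY
    | succ n ih => exact card_step F G P _ hμ hι hJ hP ih
  have h2 : (⋃ n, clo F G P Y n : Set A) = ⋃ n : ULift.{u} ℕ, clo F G P Y n.down := by
    ext a
    simp only [mem_iUnion]
    exact ⟨fun ⟨n, hn⟩ => ⟨⟨n⟩, hn⟩, fun ⟨n, hn⟩ => ⟨n.down, hn⟩⟩
  rw [h2]
  refine (Cardinal.mk_iUnion_le _).trans ?_
  have h3 : #(ULift.{u} ℕ) ≤ μ := by
    rw [Cardinal.mk_uLift, Cardinal.mk_nat, Cardinal.lift_aleph0]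
    exact hμ
  have h4 : (⨆ n : ULift.{u} ℕ, #(clo F G P Y n.down)) ≤ μ := ciSup_le' fun n => h1 n.down
  exact (mul_le_mul' h3 h4).trans (Cardinal.mul_eq_self hμ).le

theorem clo_mono (F : ι → List A → A → A) (G : J → List A → A) (P Y : Set A) :
    Monotone (clo F G P Y) :=
  monotone_nat_of_le_succ fun n => (subset_union_left.trans subset_union_left)

theorem clo_F {F : ι → List A → A → A} {G : J → List A → A} {P Y : Set A} {a : A}
    (ha : a ∈ ⋃ n, clo F G P Y n) (i : ι) (l : List A) (hl : ∀ c ∈ l, c ∈ P) :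
    F i l a ∈ ⋃ n, clo F G P Y n := by
  obtain ⟨n, hn⟩ := mem_iUnion.1 ha
  refine mem_iUnion.2 ⟨n + 1, Or.inl (Or.inr ?_)⟩
  exact mem_iUnion₂.2 ⟨a, hn, R_closed (self_mem_R F P a) i l hl⟩

theorem clo_G {F : ι → List A → A → A} {G : J → List A → A} {P Y : Set A} {l : List A}
    (hl : ∀ c ∈ l, c ∈ ⋃ n, clo F G P Y n) (j : J) : G j l ∈ ⋃ n, clo F G P Y n := by
  have h1 : ∃ n, ∀ c ∈ l, c ∈ clo F G P Y n := by
    induction l with
    | nil => exact ⟨0, by simp⟩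
    | cons c l ih =>
      obtain ⟨n, hn⟩ := ih fun c' hc' => hl c' (List.mem_cons_of_mem _ hc')
      obtain ⟨m, hm⟩ := mem_iUnion.1 (hl c List.mem_cons_self)
      refine ⟨max n m, fun c' hc' => ?_⟩
      rcases List.mem_cons.1 hc' with rfl | hc'
      · exact clo_mono F G P Y (le_max_right _ _) hm
      · exact clo_mono F G P Y (le_max_left _ _) (hn c' hc')
  obtain ⟨n, hn⟩ := h1
  exact mem_iUnion.2 ⟨n + 1, Or.inr (mem_iUnion.2 ⟨j, l, hn, rfl⟩)⟩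

/-- A closed set, with operations on the small part. -/
theorem build_two {U P C E : Set A} (hCU : C ⊆ U) (hCκ : #C < κ)
    (hCE : succ #C ≤ #E) (F : ι → List A → A → A) (G : J → List A → A)
    (hω : ℵ₀ ≤ #P) (hι : #ι ≤ #P) (hJ : #J ≤ #P) (hPC : P ⊆ C)
    (hE : ∀ a ∈ E, ∀ b ∈ R F P a, b ∈ U → b ∈ C) :
    ∃ (X : Set A) (μ : Cardinal.{u}), μ < κ ∧ #X = succ μ ∧
      #(X ∩ U : Set A) = μ ∧ P ⊆ X ∧ (∀ i l, (∀ c ∈ l, c ∈ P) → ∀ a ∈ X, F i l a ∈ X) ∧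
      ∀ j l, (∀ c ∈ l, c ∈ X ∧ c ∈ U) → G j l ∈ X := by
  classical
  have hPC' : #P ≤ #C := Cardinal.mk_le_mk_of_subset hPC
  obtain ⟨I, hIE, hI⟩ := le_mk_iff_exists_subset.1 hCE
  obtain ⟨Y, hY⟩ : ∃ Y : Set A, Y = ⋃ n, clo F G P C n := ⟨_, rfl⟩
  have hωC := hω.trans hPC'
  have hιC := hι.trans hPC'
  have hYU : #(Y : Set A) ≤ #C := by
    rw [hY]; exact card_clo F G P C hωC hιC (hJ.trans hPC') hPC' le_rfl
  have hCY : C ⊆ Y := by rw [hY]; exact subset_iUnion (clo F G P C) 0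
  obtain ⟨X, hX⟩ : ∃ X : Set A, X = Y ∪ ⋃ a ∈ I, R F P a := ⟨_, rfl⟩
  have hXmem : ∀ b, b ∈ X ↔ b ∈ Y ∨ ∃ a, a ∈ I ∧ b ∈ R F P a := fun b => by
    rw [hX]; simp only [mem_union, mem_iUnion, exists_prop]
  have hXU : ∀ b ∈ X, b ∈ U → b ∈ Y := by
    intro b hb hbU
    rcases (hXmem b).1 hb with h | ⟨a, ha, hba⟩
    · exact h
    · exact hCY (hE a (hIE ha) b hba hbU)
  refine ⟨X, #C, hCκ, ?_, ?_, ?_, ?_, ?_⟩
  · apply le_antisymm
    · rw [hX]
      refine (Cardinal.mk_union_le _ _).trans ?_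
      refine Cardinal.add_le_of_le (hωC.trans (Order.le_succ _))
        (hYU.trans (Order.le_succ _)) ?_
      exact card_biUnion_R F P I hωC (Order.le_succ _) hιC hPC' hI.le
    · rw [← hI]
      exact Cardinal.mk_le_mk_of_subset fun b hb =>
        (hXmem b).2 (Or.inr ⟨b, hb, self_mem_R F P b⟩)
  · apply le_antisymm
    · exact (Cardinal.mk_le_mk_of_subset fun b hb => hXU b hb.1 hb.2).trans hYU
    · exact Cardinal.mk_le_mk_of_subset fun b hb => ⟨(hXmem b).2 (Or.inl (hCY hb)), hCU hb⟩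
  · exact fun c hc => (hXmem c).2 (Or.inl (hCY (hPC hc)))
  · intro i l hl a ha
    rcases (hXmem a).1 ha with h | ⟨a', ha', ha2⟩
    · refine (hXmem _).2 (Or.inl ?_)
      rw [hY] at h ⊢
      exact clo_F h i l hl
    · exact (hXmem _).2 (Or.inr ⟨a', ha', R_closed ha2 i l hl⟩)
  · intro j l hl
    have h1 : ∀ c ∈ l, c ∈ Y := fun c hc => hXU c (hl c hc).1 (hl c hc).2
    refine (hXmem _).2 (Or.inl ?_)
    rw [hY] at h1 ⊢
    exact clo_G h1 j

end Pool.Agent.Lib.MP_54fe2d_lc.UC
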